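import Pool.Agent.ANO2.Stmt.Main
import Pool.Agent.ANO2.Fin.Main

set_option autoImplicit false

open scoped UpperHalfPlane MatrixGroups

open Pool.Agent.ANO Pool.Agent.ANO2.Stmt

/-- **No Anosov diffeomorphism acts irreducibly on the surface factors** of
`M = S₁ × ⋯ × S_r × T^k` (no transitivity assumption).

Let `S_i = Γ_i \ ℍ`, `i = 1, …, r`, `r ≥ 1`, be closed oriented hyperbolic surfaces, `k ≥ 0`, and let
`f_i` be homeomorphisms of `S_i`, each of them pseudo-Anosov (with respect to any holomorphic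
quadratic differential) or of finite order up to isotopy, `A` a hyperbolic matrix in `GL_k(ℤ)` and
`τ : S₁ × ⋯ × S_r → T^k` any continuous map.  Let `F` be a lift to the universal cover
`ℍ^r × ℝ^k` of a `C¹` Anosov diffeomorphism of `M`.  Then no power `F^n`, `n ≥ 1`, is homotopic to
`(z, t) ↦ (f₁ z₁, …, f_r z_r, A t + τ z)`. -/
theorem Pool.Agent.Results.MP_5e77d9_an.NoAnosovIrreducible.result
    (r k : ℕ) (hr : 0 < r) (Γ : Fin r → Subgroup SL(2, ℝ)) (hΓ : ∀ i, IsSurfaceGroup (Γ i))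
    (f : Fin r → ℍ → ℍ) (hf : ∀ i, IsPseudoAnosov (Γ i) (f i) ∨ IsPeriodic (Γ i) (f i))
    (A : Matrix (Fin k) (Fin k) ℤ) (hA : IsHyperbolicMatrix A)
    (τ : (Fin r → ℍ) → (Fin k → ℝ)) (hτ : IsTwist Γ τ)
    (F : X r k → X r k) (hF : IsAnosovLift Γ F) (n : ℕ) (hn : 0 < n) :
    ¬ Homotopic Γ (model f A τ) F^[n] :=
  main Pool.Agent.ANO2.mainStatement r k hr Γ hΓ f hf A hA τ hτ F hF n hn
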