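import Pool.Agent.ANO3.Stmt.Main
import Pool.Agent.ANO3.Fin.Main

set_option autoImplicit false

open scoped UpperHalfPlane MatrixGroups

open Pool.Agent.ANO Pool.Agent.ANO2.Stmt Pool.Agent.ANO3.Stmt

/-- **There is no Anosov diffeomorphism on a product of closed hyperbolic surfaces** (no
transitivity assumption).

Let `S_i = Γ_i \ ℍ`, `i = 1, …, r`, `r ≥ 1`, be closed oriented hyperbolic surfaces, and let `f_i` be
any homeomorphisms of `S_i` which have a power isotopic to a homeomorphism in Thurston normal form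
(by Thurston's theorem every homeomorphism of `S_i` has this property, whether it is pseudo-Anosov,
reducible or of finite order).  Let `F` be a lift to the universal cover `ℍ^r` of a `C¹` Anosov
diffeomorphism of `M = S₁ × ⋯ × S_r`.  Then no power `F^n`, `n ≥ 1`, is homotopic to the product map
`f₁ × ⋯ × f_r`. -/
theorem Pool.Agent.Results.MP_5e77d9_an.NoAnosovSurfaceProduct.result
    (r : ℕ) (hr : 0 < r) (Γ : Fin r → Subgroup SL(2, ℝ)) (hΓ : ∀ i, IsSurfaceGroup (Γ i))
    (f : Fin r → ℍ → ℍ) (hf : ∀ i, HasNormalForm (Γ i) (f i))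
    (F : X r 0 → X r 0) (hF : IsAnosovLift Γ F) (n : ℕ) (hn : 0 < n) :
    ¬ Homotopic Γ (product f) F^[n] :=
  main Pool.Agent.ANO3.mainStatement r hr Γ hΓ f hf F hF n hn
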